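import Pool.Agent.helper67.RG.Spec

/-!
# Project rg (MP_2e0e07_nt), row COM: the coefficients of `M` are in the algebra of `V ⊕ ρ`
-/

namespace Pool.Agent.RG.COM

open Matrix Pool.Agent.GO Pool.Agent.AR Pool.Agent.RG Kronecker

theorem COM : COM_stmt := by
  intro F Γ m _ _ _ _ V ρ d b W M T T' _ hT' hW hcoef i j
  have h1 : ∀ g, T' * W g * T = ρ g ⊗ₖ M g := by
    intro g
    rw [Matrix.mul_assoc, hW, ← Matrix.mul_assoc, hT', Matrix.one_mul]
  have h2 : ∀ g, (ρ g⁻¹ ⊗ₖ (1 : Matrix (Fin b) (Fin b) F)) * (T' * W g * T) =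
      (1 : Matrix (Fin 2) (Fin 2) F) ⊗ₖ M g := by
    intro g
    rw [h1, ← Matrix.mul_kronecker_mul, Matrix.one_mul, ← map_mul, inv_mul_cancel, map_one]
  have h3 : (fun g => M g i j) = ∑ p : Fin 2 × Fin b, ((fun g => ρ g⁻¹ 0 p.1) *
      algebraMap F (Γ → F) ((1 : Matrix (Fin b) (Fin b) F) i p.2)) *
      ∑ k : Fin d, (∑ l : Fin d, algebraMap F (Γ → F) (T' p l) * (fun g => W g l k)) *
        algebraMap F (Γ → F) (T k ((0 : Fin 2), j)) := by
    funext g
    have h4 := congrFun (congrFun (h2 g) ((0 : Fin 2), i)) ((0 : Fin 2), j)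
    rw [Matrix.kroneckerMap_apply, Matrix.one_apply_eq, one_mul] at h4
    show M g i j = _
    rw [← h4, Matrix.mul_apply]
    simp only [Matrix.kroneckerMap_apply, Matrix.mul_apply, Finset.sum_apply, Pi.mul_apply,
      Pi.algebraMap_apply, Algebra.algebraMap_self, RingHom.id_apply]
  rw [h3]
  refine Subalgebra.sum_mem _ fun p _ => Subalgebra.mul_mem _ (Subalgebra.mul_mem _
    (alg_le_ds' V ρ (coefInv_mem ρ 0 p.1)) (Subalgebra.algebraMap_mem _ _))
    (Subalgebra.sum_mem _ fun k _ => Subalgebra.mul_mem _ (Subalgebra.sum_mem _ fun l _ =>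
      Subalgebra.mul_mem _ (Subalgebra.algebraMap_mem _ _) (alg_le_ds V ρ (hcoef l k)))
      (Subalgebra.algebraMap_mem _ _))

end Pool.Agent.RG.COM
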