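import Pool.Agent.helper21.RG.EV
import Pool.Agent.helper21.FF.Clause3
import Pool.Agent.helper67.RG.AdCoef

/-!
# Row TF (MP_2e0e07_nt): if `ad⁰ ρ` is potentially in a tensor construction of `V` then the Frobenius
fields of `ρ` are contained in those of `V` at a dense set of places of an open subgroup
-/

set_option autoImplicit false

namespace Pool.Agent.RG.TF

open Matrix Polynomial Topology Pool.Agent.GO Pool.Agent.AR Pool.Agent.RG MeasureTheory

/-- the trace of an irreducible `ρ` does not vanish on a nonempty open set -/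
theorem trace_ne_zero {Γ F : Type*} [Group Γ] [TopologicalSpace Γ] [IsTopologicalGroup Γ]
    [CompactSpace Γ] [MeasurableSpace Γ] [BorelSpace Γ] (μ : Measure Γ) [μ.IsHaarMeasure]
    [Field F] [IsAlgClosed F] [CharZero F] [TopologicalSpace F] [IsTopologicalRing F] [T2Space F]
    (ρ : Γ →* Matrix (Fin 2) (Fin 2) F) (hρ : Continuous ρ)
    (hirr : ∀ U : Subgroup Γ, IsOpen (U : Set Γ) → Irred (fun u : U => ρ u)) (O : Set Γ)
    (hO : IsOpen O) (hne : O.Nonempty) : ∃ g ∈ O, (ρ g).trace ≠ 0 := by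
  classical
  by_contra hcon
  push Not at hcon
  have hft : Algebra.FiniteType F (alg ρ) := finiteType_alg ρ
  have hnoeth : IsNoetherianRing (alg ρ) := Algebra.FiniteType.isNoetherianRing F _
  obtain ⟨U, hU, hU2⟩ := exists_component μ (alg ρ) (fun f hf => continuous_alg ρ hρ hf)
    (fun f hf h => alg_lt ρ h hf)
  obtain ⟨y, hy⟩ := hne
  have hf : (fun g => (ρ g).trace) ∈ alg ρ := by
    have h1 : (fun g => (ρ g).trace) = ∑ i, fun g => ρ g i i := by
      funext g
      rw [Finset.sum_apply]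
      rfl
    rw [h1]
    exact Subalgebra.sum_mem _ fun i _ => coef_mem ρ i i
  have hpos : μ ({g | (fun g => (ρ g).trace) g = 0} ∩ {g | y⁻¹ * g ∈ U}) ≠ 0 := by
    have h1 : IsOpen (O ∩ {g | y⁻¹ * g ∈ U}) :=
      hO.inter (hU.preimage (continuous_const.mul continuous_id))
    have h2 : (O ∩ {g | y⁻¹ * g ∈ U}).Nonempty := by
      refine ⟨y, hy, ?_⟩
      show y⁻¹ * y ∈ U
      rw [inv_mul_cancel]
      exact U.one_mem
    intro h0
    have h3 := measure_mono_null (fun g hg => ⟨hcon g hg.1, hg.2⟩ :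
      O ∩ {g | y⁻¹ * g ∈ U} ⊆ {g | (fun g => (ρ g).trace) g = 0} ∩ {g | y⁻¹ * g ∈ U}) h0
    exact (h1.measure_pos μ h2).ne' h3
  have h4 := hU2 _ hf y hpos
  have hspan := span_top_of_irred (ρ.comp U.subtype) (hirr U hU)
  have h5 : ∀ M : Matrix (Fin 2) (Fin 2) F, (ρ y * M).trace = 0 := by
    intro M
    have hM : M ∈ Submodule.span F (Set.range (ρ.comp U.subtype)) := by rw [hspan]; trivial
    induction hM using Submodule.span_induction with
    | mem M hM =>
      obtain ⟨u, rfl⟩ := hM
      have h6 := h4 (y * u) (by rw [inv_mul_cancel_left]; exact u.2)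
      have h7 : (ρ (y * u)).trace = 0 := h6
      rwa [map_mul] at h7
    | zero => rw [mul_zero, Matrix.trace_zero]
    | add M N _ _ hM hN => rw [mul_add, Matrix.trace_add, hM, hN, add_zero]
    | smul c M _ hM => rw [mul_smul_comm, Matrix.trace_smul, hM, smul_zero]
  have h6 := h5 (ρ y⁻¹)
  rw [← map_mul, mul_inv_cancel, map_one, Matrix.trace_one] at h6
  norm_num at h6

/-- the quotient of the two eigenvalues is an eigenvalue of the adjoint representation -/
theorem ratio_root {Γ F : Type*} [Group Γ] [Field F] (ρ : Γ →* Matrix (Fin 2) (Fin 2) F) (g : Γ)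
    (α β : F) (hα : (ρ g).charpoly = (X - C α) * (X - C β)) (hne : α ≠ β) (hβ : β ≠ 0) :
    (ad0 ρ g).charpoly.IsRoot (α / β) := by
  set A : Matrix (Fin 2) (Fin 2) F := ρ g with hA
  have hinv : A * ρ g⁻¹ = 1 := by rw [hA, ← map_mul, mul_inv_cancel, map_one]
  have hCH : (A - α • 1) * (A - β • 1) = 0 := by
    have h1 := Matrix.aeval_self_charpoly A
    rw [hα, map_mul] at h1
    simp only [map_sub, aeval_X, aeval_C, Algebra.algebraMap_eq_smul_one] at h1
    exact h1
  have hCH' : (A - β • 1) * (A - α • 1) = 0 := by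
    rw [← hCH]
    simp only [sub_mul, mul_sub, smul_mul_assoc, mul_smul_comm, one_mul, mul_one, smul_sub,
      smul_smul]
    rw [mul_comm β α]
    abel
  have hroots : ∀ c : F, A = c • (1 : Matrix (Fin 2) (Fin 2) F) → α = β := by
    intro c hc
    have h1 : A.charpoly = (X - C c) * (X - C c) := by
      rw [Matrix.charpoly_fin_two, hc]
      have e1 : (c • (1 : Matrix (Fin 2) (Fin 2) F)).trace = 2 * c := by
        rw [Matrix.trace_smul, Matrix.trace_one, Fintype.card_fin, smul_eq_mul]
        push_cast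
        ring
      have e2 : (c • (1 : Matrix (Fin 2) (Fin 2) F)).det = c * c := by
        rw [Matrix.det_smul, Matrix.det_one, Fintype.card_fin]
        ring
      rw [e1, e2, C_mul, C_mul]
      have e3 : (C (2 : F) : F[X]) = 2 := C_ofNat 2
      rw [e3]
      ring
    rw [hα] at h1
    have h2 : (α - c) * (α - c) = 0 := by
      have := congrArg (fun f : F[X] => f.eval α) h1
      simpa using this.symm
    have h3 : (β - c) * (β - c) = 0 := by
      have := congrArg (fun f : F[X] => f.eval β) h1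
      simpa using this.symm
    rw [mul_self_eq_zero, sub_eq_zero] at h2 h3
    rw [h2, h3]
  have hAα : A - α • 1 ≠ 0 := fun h => hne (hroots α (sub_eq_zero.1 h))
  have hAβ : A - β • 1 ≠ 0 := fun h => hne (hroots β (sub_eq_zero.1 h))
  obtain ⟨i, k, hik⟩ : ∃ i k, (A - β • 1) i k ≠ 0 := by
    by_contra hcon
    push Not at hcon
    exact hAβ (Matrix.ext hcon)
  obtain ⟨l, j, hlj⟩ : ∃ l j, (A - α • 1) l j ≠ 0 := by
    by_contra hcon
    push Not at hcon
    exact hAα (Matrix.ext hcon)
  set Z : Matrix (Fin 2) (Fin 2) F := (A - β • 1) * Matrix.single k l 1 * (A - α • 1) with hZ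
  have hZ0 : Z ≠ 0 := by
    intro h0
    have h1 := congrFun (congrFun h0 i) j
    have h2 : Z i j = (A - β • 1) i k * (A - α • 1) l j := by
      rw [hZ, Matrix.mul_apply, Finset.sum_eq_single l]
      · rw [Matrix.mul_apply, Finset.sum_eq_single k]
        · rw [Matrix.single_apply_same, mul_one]
        · intro b _ hb
          rw [Matrix.single_apply_of_ne _ _ _ _ _ (by intro h; exact hb h.1.symm), mul_zero]
        · intro h; exact absurd (Finset.mem_univ _) h
      · intro b _ hb
        rw [Matrix.mul_apply, Finset.sum_eq_zero, zero_mul]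
        intro c _
        rw [Matrix.single_apply_of_ne _ _ _ _ _ (by intro h; exact hb h.2.symm), mul_zero]
      · intro h; exact absurd (Finset.mem_univ _) h
    rw [h2] at h1
    exact mul_ne_zero hik hlj h1
  have hAZ : A * Z = α • Z := by
    have h1 : (A - α • 1) * Z = 0 := by
      rw [hZ, ← mul_assoc, ← mul_assoc, hCH, zero_mul, zero_mul]
    rw [sub_mul, smul_mul_assoc, one_mul, sub_eq_zero] at h1
    exact h1
  have hZA : Z * A = β • Z := by
    have h1 : Z * (A - β • 1) = 0 := by
      rw [hZ, mul_assoc, hCH, mul_zero]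
    rw [mul_sub, mul_smul_comm, mul_one, sub_eq_zero] at h1
    exact h1
  have htr : Z.trace = 0 := by
    rw [hZ, Matrix.trace_mul_comm, ← mul_assoc, hCH, zero_mul, Matrix.trace_zero]
  have hZi : Z * ρ g⁻¹ = β⁻¹ • Z := by
    have h1 : Z * A * ρ g⁻¹ = Z := by rw [mul_assoc, hinv, mul_one]
    rw [hZA, smul_mul_assoc] at h1
    rw [← h1, smul_smul, inv_mul_cancel₀ hβ, one_smul, h1]
  rw [isRoot_iff_exists]
  refine ⟨co Z, ?_, ?_⟩
  · intro h0
    apply hZ0
    rw [← em_co htr, h0]
    ext a b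
    fin_cases a <;> fin_cases b <;> simp [AR.em]
  · have h1 := em_ad0 ρ g (co Z)
    rw [em_co htr, ← hA, hAZ, smul_mul_assoc, hZi, smul_smul] at h1
    have h2 := congrArg co h1
    rw [co_em] at h2
    rw [h2]
    ext a
    fin_cases a <;> simp [AR.co, div_eq_mul_inv]

/-- Row TF, coefficient form. -/
theorem TFc {Γ Place E F : Type*} [Group Γ] [TopologicalSpace Γ] [IsTopologicalGroup Γ]
    [CompactSpace Γ] [MeasurableSpace Γ] [BorelSpace Γ] (μ : Measure Γ) [μ.IsHaarMeasure]
    (frob : Place → Set Γ) [Field E] [Field F] [IsAlgClosed F] [CharZero F] [TopologicalSpace F]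
    [IsTopologicalRing F] [T2Space F] {r : ℕ} {n : Fin r → ℕ} (P : Fin r → Place → E[X])
    (Q : Place → E[X]) (ι : E →+* F) (V : (i : Fin r) → Γ →* Matrix (Fin (n i)) (Fin (n i)) F)
    (ρ : Γ →* Matrix (Fin 2) (Fin 2) F) (hd : DenseIn frob ⊤ Set.univ)
    (hR : IsRealisation frob P Q ι V ρ) (U : Subgroup Γ) (hU : IsOpen (U : Set Γ))
    (h : ∀ i j, (fun u : U => ad0 (ρ.comp U.subtype) u i j) ∈ alg ((dirSum V).comp U.subtype)) :
    ∃ S : Set Place, DenseIn frob U S ∧ FrobeniusFields P Q S := by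
  choose TV hTV hTV' using hR.compV
  obtain ⟨Tρ, hTρ, hTρ'⟩ := hR.comp
  set T : Set Place := (⋃ i, TV i) ∪ Tρ with hT
  have hTf : T.Finite := (Set.finite_iUnion hTV).union hTρ
  have hTi : ∀ v ∉ T, ∀ i, v ∉ TV i := fun v hv i h => hv (Or.inl (Set.mem_iUnion.2 ⟨i, h⟩))
  have htc : Continuous fun g => (ρ g).trace := Continuous.matrix_trace hR.cont
  refine ⟨{v | v ∉ T ∧ ∃ s ∈ frob v, s ∈ U ∧ (ρ s).trace ≠ 0}, ?_, ?_⟩
  · rintro O T' hO ⟨g, hgO, hgU⟩ hT'
    obtain ⟨g', hg', hg't⟩ := trace_ne_zero μ ρ hR.cont hR.irr (O ∩ U) (hO.inter hU) ⟨g, hgO, hgU⟩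
    obtain ⟨v, -, hvT, s, hs, -, ⟨hsO, hsU⟩, hst⟩ := hd ((O ∩ U) ∩ {g | (ρ g).trace ≠ 0})
      (T ∪ T') ((hO.inter hU).inter (isOpen_ne.preimage htc))
      ⟨g', ⟨hg', hg't⟩, Subgroup.mem_top g'⟩ (hTf.union hT')
    rw [Set.mem_union, not_or] at hvT
    exact ⟨v, ⟨hvT.1, s, hs, hsU, hst⟩, hvT.2, s, hs, hsU, hsO⟩
  · rintro v ⟨hvT, s, hs, hsU, hst⟩
    have hVs : (dirSum V s).charpoly = (∏ i, P i v).map ι := by
      rw [charpoly_dirSum', Polynomial.map_prod]
      exact Finset.prod_congr rfl fun i _ => hTV' i v (hTi v hvT i) s hs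
    have hρs : (ρ s).charpoly = (Q v).map ι := hTρ' v (fun h => hvT (Or.inr h)) s hs
    have hP0 : (∏ i, P i v) ≠ 0 := by
      intro h0
      rw [h0, Polynomial.map_zero] at hVs
      exact (Matrix.charpoly_monic _).ne_zero hVs
    let _ : Algebra E F := ι.toAlgebra
    let φ : (∏ i, P i v).SplittingField →ₐ[E] F := SplittingField.lift _ (IsAlgClosed.splits _)
    have hφ : (φ : (∏ i, P i v).SplittingField →+* F).comp
        (algebraMap E (∏ i, P i v).SplittingField) = ι := φ.comp_algebraMap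
    set K : Subfield F := (φ : (∏ i, P i v).SplittingField →+* F).fieldRange with hK
    have hιK : ∀ c : E, ι c ∈ K := by
      intro c
      rw [← hφ]
      exact ⟨algebraMap E _ c, rfl⟩
    have hroots : ∀ x, (dirSum V s).charpoly.IsRoot x → x ∈ K := by
      intro x hx
      rw [hVs] at hx
      have h3 : (∏ i, P i v).map ι = ((∏ i, P i v).map
          (algebraMap E (∏ i, P i v).SplittingField)).map
            (φ : (∏ i, P i v).SplittingField →+* F) := by
        rw [Polynomial.map_map, hφ]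
      rw [h3] at hx
      have h0 : (∏ i, P i v).map (algebraMap E (∏ i, P i v).SplittingField) ≠ 0 :=
        map_ne_zero hP0
      rw [← mem_roots (map_ne_zero h0), (SplittingField.splits _).roots_map,
        Multiset.mem_map] at hx
      obtain ⟨z, -, hz⟩ := hx
      exact ⟨z, hz⟩
    have htK : (ρ s).trace ∈ K := by
      have h1 : (ρ s).charpoly.coeff 1 = -(ρ s).trace := by
        rw [Matrix.charpoly_fin_two]
        simp [coeff_X, coeff_C]
      have h2 : (ρ s).trace = ι (-(Q v).coeff 1) := by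
        rw [map_neg, ← Polynomial.coeff_map, ← hρs, h1, neg_neg]
      rw [h2]
      exact hιK _
    have hdet : (ρ s).det ≠ 0 := by
      intro h0
      have h1 : ρ s * ρ s⁻¹ = 1 := by rw [← map_mul, mul_inv_cancel, map_one]
      have h2 := congrArg Matrix.det h1
      rw [Matrix.det_mul, h0, zero_mul, Matrix.det_one] at h2
      exact zero_ne_one h2
    refine Splits.of_splits_map (φ : (∏ i, P i v).SplittingField →+* F)
      (IsAlgClosed.splits _) ?_
    intro y hy
    rw [Polynomial.map_map, hφ, ← hρs, mem_roots (Matrix.charpoly_monic _).ne_zero] at hy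
    show y ∈ K
    -- the two eigenvalues
    set β : F := (ρ s).trace - y with hβ
    have hyβ : y * β = (ρ s).det := by
      have h1 : (ρ s).charpoly.eval y = 0 := hy
      rw [Matrix.charpoly_fin_two] at h1
      simp only [eval_add, eval_sub, eval_mul, eval_pow, eval_X, eval_C] at h1
      rw [hβ]
      linear_combination -h1
    have hfac : (ρ s).charpoly = (X - C y) * (X - C β) := by
      rw [Matrix.charpoly_fin_two, ← hyβ]
      have h1 : (ρ s).trace = y + β := by rw [hβ]; ring
      rw [h1, C_add, C_mul]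
      ring
    have hβ0 : β ≠ 0 := by
      intro h0
      rw [h0, mul_zero] at hyβ
      exact hdet hyβ.symm
    by_cases hne : y = β
    · have h1 : y = (ρ s).trace / 2 := by
        rw [eq_div_iff two_ne_zero]
        have h2 : (ρ s).trace = y + β := by rw [hβ]; ring
        rw [h2, ← hne]
        ring
      rw [h1]
      exact K.div_mem htK (by exact_mod_cast natCast_mem K 2)
    · have hx : y / β ∈ K :=
        EV.EV ((dirSum V).comp U.subtype) (ad0 (ρ.comp U.subtype)) h ⟨s, hsU⟩ K hroots (y / β)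
          (ratio_root (ρ.comp U.subtype) ⟨s, hsU⟩ y β hfac hne hβ0)
      have h1 : (1 + y / β) * β = (ρ s).trace := by
        rw [add_mul, one_mul, div_mul_cancel₀ _ hβ0, hβ]
        ring
      have h2 : 1 + y / β ≠ 0 := by
        intro h0
        rw [h0, zero_mul] at h1
        exact hst h1.symm
      have h3 : β = (ρ s).trace / (1 + y / β) := by
        rw [eq_div_iff h2, mul_comm]
        exact h1
      have h4 : β ∈ K := by
        rw [h3]
        exact K.div_mem htK (K.add_mem K.one_mem hx)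
      have h5 : y = y / β * β := by rw [div_mul_cancel₀ _ hβ0]
      rw [h5]
      exact K.mul_mem hx h4

/-- Row TF. -/
theorem TF {Γ Place E F : Type*} [Group Γ] [TopologicalSpace Γ] [IsTopologicalGroup Γ]
    [CompactSpace Γ] [MeasurableSpace Γ] [BorelSpace Γ] (μ : Measure Γ) [μ.IsHaarMeasure]
    (frob : Place → Set Γ) [Field E] [Field F] [IsAlgClosed F] [CharZero F] [TopologicalSpace F]
    [IsTopologicalRing F] [T2Space F] {r : ℕ} {n : Fin r → ℕ} (P : Fin r → Place → E[X])
    (Q : Place → E[X]) (ι : E →+* F) (V : (i : Fin r) → Γ →* Matrix (Fin (n i)) (Fin (n i)) F)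
    (ρ : Γ →* Matrix (Fin 2) (Fin 2) F) (hd : DenseIn frob ⊤ Set.univ)
    (hR : IsRealisation frob P Q ι V ρ) (U : Subgroup Γ) (hU : IsOpen (U : Set Γ)) (a b : ℕ)
    (h : AdSubquotient U ρ (tens (dirSum V) a b)) :
    ∃ S : Set Place, DenseIn frob U S ∧ FrobeniusFields P Q S :=
  TFc μ frob P Q ι V ρ hd hR U hU (ad0_of_adSubquotient (dirSum V) ρ U a b h)

end Pool.Agent.RG.TF
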