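import Pool.Agent.helper40.RG.LFD

/-!
# Eigenvalues of representations with coefficients in `alg R` (MP_2e0e07_nt)

If the coefficients of `σ` are in the algebra of the coefficients of `R`, then the eigenvalues of
`σ g` are in every subfield which contains the eigenvalues of `R g`.
-/

set_option autoImplicit false

namespace Pool.Agent.RG.EV

open Matrix Polynomial Pool.Agent.GO Pool.Agent.AR Pool.Agent.RG Pool.Agent.RG.LFD

section general

variable {F A : Type*} [Field F] [CommRing A] [Algebra F A]

/-- the sum of the generalised eigenspaces with eigenvalues in `K`, as a subalgebra -/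
def spanK (τ : A →ₐ[F] A) (K : Subfield F) : Subalgebra F A where
  carrier := ((⨆ χ : K, Module.End.maxGenEigenspace τ.toLinearMap (χ : F) : Submodule F A) : Set A)
  add_mem' := fun ha hb => Submodule.add_mem _ ha hb
  mul_mem' := by
    intro a b ha hb
    rw [SetLike.mem_coe] at ha hb ⊢
    refine Submodule.iSup_induction _
      (motive := fun a => a * b ∈ ⨆ χ : K, Module.End.maxGenEigenspace τ.toLinearMap (χ : F)) ha
      ?_ ?_ ?_
    · intro χ a ha
      refine Submodule.iSup_induction _
        (motive := fun b => a * b ∈ ⨆ χ : K, Module.End.maxGenEigenspace τ.toLinearMap (χ : F)) hb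
        ?_ ?_ ?_
      · intro ψ b hb
        exact Submodule.mem_iSup_of_mem (χ * ψ) (mul_mem_gen τ χ ψ a b ha hb)
      · rw [mul_zero]
        exact Submodule.zero_mem _
      · intro x y hx hy
        rw [mul_add]
        exact Submodule.add_mem _ hx hy
    · rw [zero_mul]
      exact Submodule.zero_mem _
    · intro x y hx hy
      rw [add_mul]
      exact Submodule.add_mem _ hx hy
  algebraMap_mem' := by
    intro r
    rw [SetLike.mem_coe]
    apply Submodule.mem_iSup_of_mem (1 : K)
    rw [Module.End.mem_maxGenEigenspace]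
    refine ⟨1, ?_⟩
    rw [pow_one, LinearMap.sub_apply, LinearMap.smul_apply, Module.End.one_apply, K.coe_one,
      one_smul, AlgHom.toLinearMap_apply, AlgHom.commutes, sub_self]

theorem mem_spanK (τ : A →ₐ[F] A) (K : Subfield F) (a : A) :
    a ∈ spanK τ K ↔ a ∈ ⨆ χ : K, Module.End.maxGenEigenspace τ.toLinearMap (χ : F) := Iff.rfl

/-- an intertwiner from a finite-dimensional space with eigenvalues in `K` -/
theorem intertwineK [IsAlgClosed F] {M : Type*} [AddCommGroup M] [Module F M]
    [FiniteDimensional F M] (τ : A →ₐ[F] A) (K : Subfield F) (f : Module.End F M) (T : M →ₗ[F] A)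
    (h : ∀ x, τ (T x) = T (f x)) (hK : ∀ χ : F, f.HasEigenvalue χ → χ ∈ K) (x : M) :
    T x ∈ spanK τ K := by
  rw [mem_spanK]
  have hx : x ∈ ⨆ χ : F, Module.End.maxGenEigenspace f χ := by
    rw [Module.End.iSup_maxGenEigenspace_eq_top]
    trivial
  refine Submodule.iSup_induction _
    (motive := fun x => T x ∈ ⨆ χ : K, Module.End.maxGenEigenspace τ.toLinearMap (χ : F)) hx
    ?_ ?_ ?_
  · intro χ x hx
    by_cases hχ : f.HasEigenvalue χ
    · apply Submodule.mem_iSup_of_mem (⟨χ, hK χ hχ⟩ : K)
      rw [Module.End.mem_maxGenEigenspace] at hx ⊢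
      obtain ⟨k, hk⟩ := hx
      refine ⟨k, ?_⟩
      have key : ∀ (k : ℕ) (x : M), ((τ.toLinearMap - χ • (1 : Module.End F A)) ^ k) (T x) =
          T (((f - χ • (1 : Module.End F M)) ^ k) x) := by
        intro k
        induction k with
        | zero => intro x; simp
        | succ k ih =>
          intro x
          rw [pow_succ, Module.End.mul_apply, pow_succ, Module.End.mul_apply, ← ih]
          congr 1
          rw [LinearMap.sub_apply, LinearMap.smul_apply, Module.End.one_apply,
            AlgHom.toLinearMap_apply, h, LinearMap.sub_apply, LinearMap.smul_apply,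
            Module.End.one_apply, map_sub, map_smul]
      show ((τ.toLinearMap - χ • (1 : Module.End F A)) ^ k) (T x) = 0
      rw [key, hk, map_zero]
    · have hx0 : x = 0 := by
        rw [Module.End.mem_maxGenEigenspace] at hx
        obtain ⟨k, hk⟩ := hx
        by_contra hx0
        apply hχ
        have hinj : ∀ y : M, (f - χ • (1 : Module.End F M)) y = 0 → y = 0 := by
          intro y hy
          by_contra hy0
          apply hχ
          refine Module.End.hasEigenvalue_of_hasEigenvector (x := y)
            ⟨Module.End.mem_eigenspace_iff.2 ?_, hy0⟩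
          rw [LinearMap.sub_apply, LinearMap.smul_apply, Module.End.one_apply, sub_eq_zero] at hy
          exact hy
        exfalso
        apply hx0
        have : ∀ k : ℕ, ∀ y : M, ((f - χ • (1 : Module.End F M)) ^ k) y = 0 → y = 0 := by
          intro k
          induction k with
          | zero => intro y hy; simpa using hy
          | succ k ih =>
            intro y hy
            rw [pow_succ, Module.End.mul_apply] at hy
            exact hinj y (ih _ hy)
        exact this k x hk
      rw [hx0, map_zero]
      exact Submodule.zero_mem _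
  · rw [map_zero]
    exact Submodule.zero_mem _
  · intro x y hx hy
    rw [map_add]
    exact Submodule.add_mem _ hx hy

/-- eigenvectors in `spanK` have eigenvalues in `K` -/
theorem eig_mem (τ : A →ₐ[F] A) (K : Subfield F) [NoZeroSMulDivisors F A] (a : A) (ha : a ≠ 0)
    (x : F) (hx : τ a = x • a) (hmem : a ∈ spanK τ K) : x ∈ K := by
  by_contra hxK
  have hind := Module.End.independent_maxGenEigenspace τ.toLinearMap
  have h1 : a ∈ Module.End.maxGenEigenspace τ.toLinearMap x := by
    rw [Module.End.mem_maxGenEigenspace]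
    refine ⟨1, ?_⟩
    rw [pow_one, LinearMap.sub_apply, LinearMap.smul_apply, Module.End.one_apply,
      AlgHom.toLinearMap_apply, hx, sub_self]
  have h2 : (⨆ χ : K, Module.End.maxGenEigenspace τ.toLinearMap (χ : F)) ≤
      ⨆ (χ : F) (_ : χ ≠ x), Module.End.maxGenEigenspace τ.toLinearMap χ := by
    refine iSup_le fun χ => ?_
    exact le_iSup₂_of_le (χ : F) (fun h => hxK (h ▸ χ.2)) le_rfl
  have h3 := (hind x).le_bot ⟨h1, h2 ((mem_spanK τ K a).1 hmem)⟩
  exact ha ((Submodule.mem_bot F).1 h3)

end general

/-- `alg R` is spanned by generalised eigenvectors of right translation with eigenvalues in `K` -/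
theorem spanK_top {F Γ m : Type*} [Field F] [IsAlgClosed F] [Group Γ] [Fintype m] [DecidableEq m]
    (R : Γ →* Matrix m m F) (g : Γ) (K : Subfield F)
    (hK : ∀ x, (R g).charpoly.IsRoot x → x ∈ K) (a : alg R) : a ∈ spanK (rtA R g) K := by
  have hinv : R g * R g⁻¹ = 1 := by rw [← map_mul, mul_inv_cancel, map_one]
  have hK1 : ∀ χ : F, Module.End.HasEigenvalue (Matrix.toLin' (R g)) χ → χ ∈ K := by
    intro χ hχ
    obtain ⟨v, hv⟩ := hχ.exists_hasEigenvector
    apply hK χ
    rw [isRoot_iff_exists]
    refine ⟨v, hv.2, ?_⟩
    have := hv.apply_eq_smul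
    rwa [Matrix.toLin'_apply] at this
  have hK2 : ∀ χ : F, Module.End.HasEigenvalue (Matrix.toLin' (R g⁻¹)ᵀ) χ → χ ∈ K := by
    intro χ hχ
    obtain ⟨v, hv⟩ := hχ.exists_hasEigenvector
    have h1 := hv.apply_eq_smul
    rw [Matrix.toLin'_apply] at h1
    have h2 : (R g)ᵀ *ᵥ ((R g⁻¹)ᵀ *ᵥ v) = v := by
      rw [Matrix.mulVec_mulVec, ← Matrix.transpose_mul]
      have h3 : R g⁻¹ * R g = 1 := by rw [← map_mul, inv_mul_cancel, map_one]
      rw [h3, Matrix.transpose_one, Matrix.one_mulVec]
    rw [h1, Matrix.mulVec_smul] at h2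
    have hχ0 : χ ≠ 0 := by
      intro h0
      rw [h0, zero_smul] at h2
      exact hv.2 h2.symm
    have h4 : (R g)ᵀ *ᵥ v = χ⁻¹ • v := by
      rw [← h2, smul_smul, inv_mul_cancel₀ hχ0, one_smul, h2]
    have h5 : ((R g)ᵀ).charpoly.IsRoot χ⁻¹ := by
      rw [isRoot_iff_exists]
      exact ⟨v, hv.2, h4⟩
    rw [Matrix.charpoly_transpose] at h5
    have h6 := K.inv_mem (hK _ h5)
    rwa [inv_inv] at h6
  have hle : alg R ≤ (spanK (rtA R g) K).map (alg R).val := by
    apply alg_le
    · intro i j
      let T : (m → F) →ₗ[F] alg R :=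
        { toFun := fun x => ∑ k, x k • gen R i k
          map_add' := fun x y => by
            simp only [Pi.add_apply, add_smul, Finset.sum_add_distrib]
          map_smul' := fun c x => by
            simp only [Pi.smul_apply, smul_eq_mul, mul_smul, Finset.smul_sum, RingHom.id_apply] }
      have hT : ∀ x h, (T x).1 h = ∑ k, x k * R h i k := by
        intro x h
        show (∑ k, x k • gen R i k : alg R).1 h = _
        rw [sum_alg_apply]
        rfl
      have hint : ∀ x, rtA R g (T x) = T (Matrix.toLin' (R g) x) := by
        intro x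
        apply Subtype.ext
        ext h
        rw [rtA_apply, hT, hT]
        simp only [map_mul, Matrix.mul_apply, Matrix.toLin'_apply, Matrix.mulVec, dotProduct,
          Finset.mul_sum, Finset.sum_mul]
        rw [Finset.sum_comm]
        apply Finset.sum_congr rfl
        intro k _
        apply Finset.sum_congr rfl
        intro l _
        ring
      have h1 := intertwineK (rtA R g) K (Matrix.toLin' (R g)) T hint hK1 (Pi.single j 1)
      refine ⟨T (Pi.single j 1), h1, ?_⟩
      ext h
      show (T (Pi.single j 1)).1 h = R h i j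
      rw [hT, Finset.sum_eq_single j]
      · simp
      · intro k _ hk
        rw [Pi.single_eq_of_ne hk, zero_mul]
      · intro hj
        exact absurd (Finset.mem_univ j) hj
    · intro i j
      let T : (m → F) →ₗ[F] alg R :=
        { toFun := fun x => ∑ k, x k • genInv R k j
          map_add' := fun x y => by
            simp only [Pi.add_apply, add_smul, Finset.sum_add_distrib]
          map_smul' := fun c x => by
            simp only [Pi.smul_apply, smul_eq_mul, mul_smul, Finset.smul_sum, RingHom.id_apply] }
      have hT : ∀ x h, (T x).1 h = ∑ k, x k * R h⁻¹ k j := by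
        intro x h
        show (∑ k, x k • genInv R k j : alg R).1 h = _
        rw [sum_alg_apply]
        rfl
      have hint : ∀ x, rtA R g (T x) = T (Matrix.toLin' (R g⁻¹)ᵀ x) := by
        intro x
        apply Subtype.ext
        ext h
        rw [rtA_apply, hT, hT]
        simp only [_root_.mul_inv_rev, map_mul, Matrix.mul_apply, Matrix.toLin'_apply,
          Matrix.mulVec, dotProduct, Matrix.transpose_apply,
          Finset.mul_sum, Finset.sum_mul]
        rw [Finset.sum_comm]
        apply Finset.sum_congr rfl
        intro k _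
        apply Finset.sum_congr rfl
        intro l _
        ring
      have h1 := intertwineK (rtA R g) K (Matrix.toLin' (R g⁻¹)ᵀ) T hint hK2 (Pi.single i 1)
      refine ⟨T (Pi.single i 1), h1, ?_⟩
      ext h
      show (T (Pi.single i 1)).1 h = R h⁻¹ i j
      rw [hT, Finset.sum_eq_single i]
      · simp
      · intro k _ hk
        rw [Pi.single_eq_of_ne hk, zero_mul]
      · intro hi
        exact absurd (Finset.mem_univ i) hi
  obtain ⟨b, hb, hba⟩ := hle a.2
  have : b = a := Subtype.ext hba
  rw [← this]
  exact hb

/-- The eigenvalues of `σ g` are in every subfield which contains the eigenvalues of `R g`. -/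
theorem EV {F Γ m κ : Type*} [Field F] [IsAlgClosed F] [Group Γ] [Fintype m] [DecidableEq m]
    [Fintype κ] [DecidableEq κ] (R : Γ →* Matrix m m F) (σ : Γ →* Matrix κ κ F)
    (hσ : ∀ i j, (fun g => σ g i j) ∈ alg R) (g : Γ) (K : Subfield F)
    (hK : ∀ x, (R g).charpoly.IsRoot x → x ∈ K) (x : F) (hx : (σ g).charpoly.IsRoot x) :
    x ∈ K := by
  obtain ⟨y, hy0, hy⟩ := (isRoot_iff_exists _ _).1 hx
  obtain ⟨i, hi⟩ : ∃ i, y i ≠ 0 := by
    by_contra hcon
    push Not at hcon
    exact hy0 (funext hcon)
  let a : alg R := ⟨fun h => (σ h *ᵥ y) i, by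
    have : (fun h => (σ h *ᵥ y) i) = ∑ j, y j • fun h => σ h i j := by
      funext h
      rw [Finset.sum_apply]
      simp only [Matrix.mulVec, dotProduct, Pi.smul_apply, smul_eq_mul]
      exact Finset.sum_congr rfl fun j _ => mul_comm _ _
    rw [this]
    exact Subalgebra.sum_mem _ fun j _ => Subalgebra.smul_mem _ (hσ i j) _⟩
  have ha0 : a ≠ 0 := by
    intro h0
    have h1 := congrArg (fun f : alg R => f.1 1) h0
    have h2 : (σ 1 *ᵥ y) i = 0 := h1
    rw [map_one, Matrix.one_mulVec] at h2
    exact hi h2
  have hax : rtA R g a = x • a := by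
    apply Subtype.ext
    ext h
    show (σ (h * g) *ᵥ y) i = x * (σ h *ᵥ y) i
    rw [map_mul, ← Matrix.mulVec_mulVec, hy, Matrix.mulVec_smul]
    rfl
  exact eig_mem (rtA R g) K a ha0 x hax (spanK_top R g K hK a)

end Pool.Agent.RG.EV
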