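import Pool.Agent.helper5.RG.MET
import Pool.Agent.helper67.RG.AdCoef

/-!
# Row TM (MP_2e0e07_nt): if `ad⁰ ρ` is potentially in a tensor construction of `V` then `meet V ρ`
has infinite index
-/

set_option autoImplicit false

namespace Pool.Agent.RG.TM

open Matrix Polynomial Pool.Agent.GO Pool.Agent.AR Pool.Agent.RG Pool.Agent.RG.MET

/-- functions of the algebra of `W` have the value of `1` at the kernel of `W` -/
theorem alg_ker {Γ F m : Type*} [Group Γ] [Field F] [Fintype m] [DecidableEq m]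
    (W : Γ →* Matrix m m F) (h : Γ) (hW : W h = 1) (f : Γ → F) (hf : f ∈ alg W) : f h = f 1 := by
  let S : Subalgebra F (Γ → F) :=
    { carrier := {f | f h = f 1}
      mul_mem' := by
        intro a b ha hb
        show a h * b h = a 1 * b 1
        rw [show a h = a 1 from ha, show b h = b 1 from hb]
      add_mem' := by
        intro a b ha hb
        show a h + b h = a 1 + b 1
        rw [show a h = a 1 from ha, show b h = b 1 from hb]
      algebraMap_mem' := fun c => rfl }
  have hW' : W h⁻¹ = 1 := by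
    have h1 : W h * W h⁻¹ = 1 := by rw [← map_mul, mul_inv_cancel, map_one]
    rwa [hW, one_mul] at h1
  have h1 : alg W ≤ S := by
    refine alg_le _ ?_ ?_
    · intro a b
      show W h a b = W 1 a b
      rw [hW, map_one]
    · intro a b
      show W h⁻¹ a b = W 1⁻¹ a b
      rw [hW', inv_one, map_one]
  exact h1 hf

/-- if `ad⁰ ρ h` is trivial then `ρ h` is a scalar -/
theorem scalar_of_ad0 {Γ F : Type*} [Group Γ] [Field F] (ρ : Γ →* Matrix (Fin 2) (Fin 2) F)
    (h : Γ) (hh : ad0 ρ h = 1) : ∃ c : F, ρ h = c • (1 : Matrix (Fin 2) (Fin 2) F) := by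
  have hinv : ρ h⁻¹ * ρ h = 1 := by rw [← map_mul, inv_mul_cancel, map_one]
  have h1 : ∀ x : Fin 3 → F, em x * ρ h = ρ h * em x := by
    intro x
    have h2 := em_ad0 ρ h x
    rw [hh, Matrix.one_mulVec] at h2
    have h3 := congrArg (fun M => M * ρ h) h2
    simp only [mul_assoc, hinv, mul_one] at h3
    exact h3
  have e1 := h1 ![1, 0, 0]
  have e2 := h1 ![0, 0, 1]
  have a1 := congrFun (congrFun e1 0) 0
  have a2 := congrFun (congrFun e1 0) 1
  have a3 := congrFun (congrFun e2 0) 0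
  simp [AR.em, Matrix.mul_apply, Fin.sum_univ_two] at a1 a2 a3
  refine ⟨ρ h 0 0, ?_⟩
  ext i j
  fin_cases i <;> fin_cases j <;> simp
  · exact a3.symm
  · exact a1
  · exact a2

/-- a scalar matrix over a larger field is a scalar matrix -/
theorem scalar_descent {F Ω : Type*} [Field F] [Field Ω] (j : F →+* Ω)
    (A : Matrix (Fin 2) (Fin 2) F) (c : Ω) (h : A.map j = c • (1 : Matrix (Fin 2) (Fin 2) Ω)) :
    A = A 0 0 • (1 : Matrix (Fin 2) (Fin 2) F) := by
  have a00 := congrFun (congrFun h 0) 0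
  have a01 := congrFun (congrFun h 0) 1
  have a10 := congrFun (congrFun h 1) 0
  have a11 := congrFun (congrFun h 1) 1
  simp at a00 a01 a10 a11
  ext i k
  fin_cases i <;> fin_cases k <;> simp
  · exact a01
  · exact a10
  · apply j.injective
    rw [a11, a00]

/-- Coefficient form of row TM. -/
theorem TMc {Γ F F' Ω : Type*} [Group Γ] [Field F] [Field F'] [Field Ω] (j : F →+* Ω)
    (j' : F' →+* Ω) {r : ℕ} {n : Fin r → ℕ}
    (V : (i : Fin r) → Γ →* Matrix (Fin (n i)) (Fin (n i)) F')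
    (ρ : Γ →* Matrix (Fin 2) (Fin 2) F) (hSI : SI (bc j ρ)) (U : Subgroup Γ) (hU : U.FiniteIndex)
    (hs : ∀ i k, (fun u : U => ad0 ((bc j ρ).comp U.subtype) u i k) ∈
      alg ((dirSum fun i => bc j' (V i)).comp U.subtype)) :
    ¬ (meet V ρ).FiniteIndex := by
  intro hM
  have hN := scalSub_normal ρ
  -- `K₀ ⊓ U ≤ H`
  have h1 : U ⊓ kerV V ≤ scalSub ρ ⊓ kerV V := by
    intro g hg
    refine ⟨?_, hg.2⟩
    have hg2 := (mem_kerV V g).1 hg.2
    have hW : ((dirSum fun i => bc j' (V i)).comp U.subtype) ⟨g, hg.1⟩ = 1 := by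
      show Matrix.blockDiagonal' (fun i => bc j' (V i) g) = 1
      have e : (fun i => bc j' (V i) g) = 1 := by
        funext i
        show (V i g).map j' = 1
        rw [hg2 i, Matrix.map_one j' (map_zero j') (map_one j')]
      rw [e, Matrix.blockDiagonal'_one]
    have had : ad0 ((bc j ρ).comp U.subtype) ⟨g, hg.1⟩ = 1 := by
      ext i k
      rw [alg_ker _ _ hW _ (hs i k), map_one]
    obtain ⟨c, hc⟩ := scalar_of_ad0 _ _ had
    have hc' : (ρ g).map j = c • (1 : Matrix (Fin 2) (Fin 2) Ω) := hc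
    exact ⟨ρ g 0 0, scalar_descent j (ρ g) c hc'⟩
  have h2 : (scalSub ρ).relIndex (kerV V) ≠ 0 := by
    rw [← Subgroup.inf_relIndex_right]
    have h3 := Subgroup.relIndex_dvd_of_le_left (kerV V) h1
    rw [Subgroup.inf_relIndex_right U] at h3
    have h4 : U.relIndex (kerV V) ≠ 0 := by
      have h5 : (U.subgroupOf (kerV V)).FiniteIndex := inferInstance
      exact h5.index_ne_zero
    exact ne_zero_of_dvd_ne_zero h4 h3
  have h3 : meet V ρ ≤ kerV V ⊔ scalSub ρ := by
    rintro g ⟨h, hV, c, hc⟩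
    have e : g = g * h⁻¹ * h := by group
    rw [e]
    apply mul_mem
    · apply Subgroup.mem_sup_right
      refine ⟨c, ?_⟩
      rw [map_mul, hc, Matrix.smul_mul, ← map_mul, mul_inv_cancel, map_one]
    · apply Subgroup.mem_sup_left
      exact (mem_kerV V h).2 hV
  have h4 : (kerV V ⊔ scalSub ρ).index ≠ 0 :=
    ne_zero_of_dvd_ne_zero hM.index_ne_zero (Subgroup.index_dvd_of_le h3)
  have h5 : (scalSub ρ).relIndex (kerV V ⊔ scalSub ρ) = (scalSub ρ).relIndex (kerV V) :=
    Subgroup.relIndex_sup_right _ _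
  have h6 : (scalSub ρ).index ≠ 0 := by
    rw [← Subgroup.relIndex_mul_index (le_sup_right : scalSub ρ ≤ kerV V ⊔ scalSub ρ), h5]
    exact mul_ne_zero h2 h4
  have h7 := hSI (scalSub ρ) ⟨h6⟩
  have h8 := h7.2 (Submodule.span Ω {(Pi.single 0 1 : Fin 2 → Ω)}) (by
    rintro ⟨g, c, hc⟩ u hu
    have e : bc j ρ g = j c • (1 : Matrix (Fin 2) (Fin 2) Ω) := by
      show (ρ g).map j = _
      rw [hc]
      ext a b
      rw [Matrix.map_apply, Matrix.smul_apply, Matrix.smul_apply, smul_eq_mul, smul_eq_mul, map_mul,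
        Matrix.one_apply, Matrix.one_apply]
      split_ifs
      · rw [map_one]
      · rw [map_zero]
    show bc j ρ g *ᵥ u ∈ _
    rw [e, Matrix.smul_mulVec, Matrix.one_mulVec]
    exact Submodule.smul_mem _ _ hu)
  rcases h8 with h8 | h8
  · have h9 : (Pi.single 0 1 : Fin 2 → Ω) ∈ Submodule.span Ω {(Pi.single 0 1 : Fin 2 → Ω)} :=
      Submodule.mem_span_singleton_self _
    rw [h8, Submodule.mem_bot] at h9
    have := congrFun h9 0
    simp at this
  · have h9 : (Pi.single 1 1 : Fin 2 → Ω) ∈ Submodule.span Ω {(Pi.single 0 1 : Fin 2 → Ω)} := by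
      rw [h8]; trivial
    rw [Submodule.mem_span_singleton] at h9
    obtain ⟨a, ha⟩ := h9
    have := congrFun ha 1
    simp at this

/-- Row TM. -/
theorem TM {Γ F F' Ω : Type*} [Group Γ] [Field F] [Field F'] [Field Ω] (j : F →+* Ω)
    (j' : F' →+* Ω) {r : ℕ} {n : Fin r → ℕ}
    (V : (i : Fin r) → Γ →* Matrix (Fin (n i)) (Fin (n i)) F')
    (ρ : Γ →* Matrix (Fin 2) (Fin 2) F) (hSI : SI (bc j ρ)) (U : Subgroup Γ) (hU : U.FiniteIndex)
    (hs : ∃ a b : ℕ, AdSubquotient U (bc j ρ) (tens (dirSum fun i => bc j' (V i)) a b)) :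
    ¬ (meet V ρ).FiniteIndex := by
  obtain ⟨a, b, h⟩ := hs
  exact TMc j j' V ρ hSI U hU fun i k => ad0_of_adSubquotient _ _ U a b h i k

end Pool.Agent.RG.TM
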